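import Pool.Agent.H96.RC.Main

set_option autoImplicit false

/-!
Full positive answer to Q1 of MP_b97a60_co.
-/

namespace Pool.Agent.Results.MP_b97a60_co.FullAnswer

open Pool.Agent.H96.RC

/-- the vertices of the caterpillar as a sum type -/
def vtxEquiv (h1 h2 h3 : ℕ) : Vtx h1 h2 h3 ≃ (Fin h1 ⊕ Fin h2) ⊕ (Fin h3 ⊕ Fin 3) where
  toFun u := match u with
    | .v1 => Sum.inr (Sum.inr 0)
    | .v2 => Sum.inr (Sum.inr 1)
    | .v3 => Sum.inr (Sum.inr 2)
    | .x i => Sum.inl (Sum.inl i)
    | .y i => Sum.inl (Sum.inr i)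
    | .z i => Sum.inr (Sum.inl i)
  invFun u := match u with
    | Sum.inl (Sum.inl i) => .x i
    | Sum.inl (Sum.inr i) => .y i
    | Sum.inr (Sum.inl i) => .z i
    | Sum.inr (Sum.inr 0) => .v1
    | Sum.inr (Sum.inr 1) => .v2
    | Sum.inr (Sum.inr 2) => .v3
  left_inv u := by cases u <;> rfl
  right_inv u := by
    rcases u with (u | u) | (u | u)
    · rfl
    · rfl
    · rfl
    · fin_cases u <;> rfl

theorem card_vtx (h1 h2 h3 : ℕ) : Nat.card (Vtx h1 h2 h3) = h1 + h2 + h3 + 3 := by
  rw [Nat.card_congr (vtxEquiv h1 h2 h3), Nat.card_eq_fintype_card]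
  simp only [Fintype.card_sum, Fintype.card_fin]
  ring

/-- Let `T` be a graph isomorphic to the caterpillar `C(h1, h2, h3)` and let `A` be a finite
abelian group with as many elements as `T` has vertices and with exponent `m ≥ 5`. If none of
the three exceptional cases 1, 2, 3 of the problem holds, then `T` is `A`-rainbow. -/
theorem result (A : Type) [AddCommGroup A] [Finite A] (V : Type) (T : SimpleGraph V)
    (h1 h2 h3 m : ℕ) (hT : Nonempty (T ≃g Cat h1 h2 h3)) (hcard : Nat.card V = Nat.card A)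
    (hexp : AddMonoid.exponent A = m) (hm : 5 ≤ m) (hex : ¬ Exceptional m h1 h2 h3) :
    ∃ f : V → A, Rainbow T f := by
  classical
  have : Fintype A := Fintype.ofFinite A
  obtain ⟨φ⟩ := hT
  have hc : Fintype.card A = h1 + h2 + h3 + 3 := by
    rw [← Nat.card_eq_fintype_card, ← hcard, Nat.card_congr φ.toEquiv, card_vtx]
  have hlab : Lab A h1 h3 := by
    refine main_lab A m h1 h2 h3 hexp hm hc ?_ ?_ ?_
    · intro h
      apply hex
      left
      omega
    · intro h
      apply hex
      right; left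
      omega
    · intro h
      apply hex
      right; right
      omega
  obtain ⟨f, hf1, hf2⟩ := t_lab A h1 h2 h3 hc hlab
  refine ⟨fun v => f (φ v), ?_, ?_⟩
  · exact hf1.comp φ.bijective
  · intro u w u' w' huw huw' h
    have := hf2 (φ u) (φ w) (φ u') (φ w') (φ.map_adj_iff.mpr huw) (φ.map_adj_iff.mpr huw') h
    have h2 := congrArg (Sym2.map φ.symm) this
    simpa [Sym2.map_mk] using h2

end Pool.Agent.Results.MP_b97a60_co.FullAnswer
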